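import Pool.Agent.Helper91.CX.Stm2

/-!
# Removable sets do not disconnect (package Q5)
-/

set_option autoImplicit false

namespace Pool.Agent.Helper15.CX

open Metric Set Topology
open scoped Manifold ContDiff
open Pool.Agent.Helper91.CX

variable {n : ℕ} {X : Type} [TopologicalSpace X]

/-- density in coordinates -/
theorem dens (φ : Ch n X) {S : Set X} {y : Fin n → ℂ} (hy : y ∈ φ.target)
    (hS : φ.symm y ∈ closure S) {N : Set (Fin n → ℂ)} (hN : IsOpen N) (hyN : y ∈ N) :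
    ∃ z ∈ N, z ∈ φ.target ∧ φ.symm z ∈ S := by
  have h1 : IsOpen (φ.source ∩ φ ⁻¹' N) := φ.isOpen_inter_preimage hN
  have h2 : φ.symm y ∈ φ.source ∩ φ ⁻¹' N := by
    refine ⟨φ.map_target hy, ?_⟩
    rw [mem_preimage, φ.right_inv hy]
    exact hyN
  obtain ⟨p, ⟨hp1, hp2⟩, hp3⟩ := _root_.mem_closure_iff.1 hS _ h1 h2
  exact ⟨φ p, hp2, φ.map_source hp1, by rwa [φ.left_inv hp1]⟩

/-- continuous functions with a given value on a dense set -/
theorem val_eq (φ : Ch n X) {S : Set X} {y : Fin n → ℂ} (hy : y ∈ φ.target)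
    (hS : φ.symm y ∈ closure S) {N : Set (Fin n → ℂ)} (hN : IsOpen N) (hyN : y ∈ N)
    {f f' : (Fin n → ℂ) → ℂ} (hf : ContinuousAt f y) (hf' : ContinuousAt f' y)
    (h : ∀ z ∈ N, φ.symm z ∈ S → f z = f' z) : f y = f' y := by
  have h1 : y ∈ closure {z | z ∈ N ∧ φ.symm z ∈ S} := by
    rw [_root_.mem_closure_iff]
    intro O hO hyO
    obtain ⟨z, hz, -, hz'⟩ := dens φ hy hS (hN.inter hO) ⟨hyN, hyO⟩
    exact ⟨z, hz.2, hz.1, hz'⟩
  have h2 : ContinuousAt (fun z => f z - f' z) y := hf.sub hf'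
  have h3 := h2.continuousWithinAt.mem_closure (t := {0}) h1 (by
    rintro z ⟨hz1, hz2⟩
    rw [mem_singleton_iff]
    change f z - f' z = 0
    rw [h z hz1 hz2, sub_self])
  rw [closure_singleton, mem_singleton_iff] at h3
  exact sub_eq_zero.1 h3

variable [ChartedSpace (Fin n → ℂ) X]

theorem conn1 [IsManifold 𝓘(ℂ, Fin n → ℂ) ω X] (M M' : Set X) (hM : IsOpen M) (hM' : IsOpen M')
    (_hMM : M' ⊆ M) (hd : M ⊆ closure M') (hR : Rem n M' M) (hc : IsPreconnected M) :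
    IsPreconnected M' := by
  classical
  rw [isPreconnected_iff_subset_of_disjoint]
  intro u v hu hv huv hdis
  set O1 : Set X := M' ∩ u with hO1
  set O2 : Set X := M' ∩ v with hO2
  have h1o : IsOpen O1 := hM'.inter hu
  have h2o : IsOpen O2 := hM'.inter hv
  have hcov : M' ⊆ O1 ∪ O2 := by
    intro x hx
    rcases huv hx with h | h
    · exact Or.inl ⟨hx, h⟩
    · exact Or.inr ⟨hx, h⟩
  have hdis' : ∀ x, x ∈ O1 → x ∈ O2 → False := by
    rintro x ⟨h1, h2⟩ ⟨-, h3⟩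
    have : x ∈ M' ∩ (u ∩ v) := ⟨h1, h2, h3⟩
    rw [hdis] at this
    exact this
  have key : ∀ x ∈ M, x ∈ closure O1 → x ∈ closure O2 → False := by
    intro x hx hx1 hx2
    set φ : Ch n X := chartAt (Fin n → ℂ) x with hφ
    have hφm : φ ∈ Charts n X := IsManifold.chart_mem_maximalAtlas x
    have hxs : x ∈ φ.source := mem_chart_source _ x
    have hW : IsOpen (φ.target ∩ φ.symm ⁻¹' M) := φ.isOpen_inter_preimage_symm hM
    have hyt : φ x ∈ φ.target := φ.map_source hxs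
    have hxW : φ x ∈ φ.target ∩ φ.symm ⁻¹' M := by
      refine ⟨hyt, ?_⟩
      rw [mem_preimage, φ.left_inv hxs]
      exact hx
    let g : (Fin n → ℂ) → ℂ := fun y => if φ.symm y ∈ O1 then 0 else 1
    have hg : DifferentiableOn ℂ g ((φ.target ∩ φ.symm ⁻¹' M) ∩ φ.symm ⁻¹' M') := by
      rintro y ⟨⟨hy1, -⟩, hy2⟩
      apply DifferentiableAt.differentiableWithinAt
      rcases hcov hy2 with h | h
      · have : g =ᶠ[𝓝 y] fun _ => 0 := by
          have hn : φ.target ∩ φ.symm ⁻¹' O1 ∈ 𝓝 y :=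
            (φ.isOpen_inter_preimage_symm h1o).mem_nhds ⟨hy1, h⟩
          filter_upwards [hn] with z hz
          exact if_pos hz.2
        exact (differentiableAt_const _).congr_of_eventuallyEq this
      · have : g =ᶠ[𝓝 y] fun _ => 1 := by
          have hn : φ.target ∩ φ.symm ⁻¹' O2 ∈ 𝓝 y :=
            (φ.isOpen_inter_preimage_symm h2o).mem_nhds ⟨hy1, h⟩
          filter_upwards [hn] with z hz
          exact if_neg fun h' => hdis' _ h' hz.2
        exact (differentiableAt_const _).congr_of_eventuallyEq this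
    obtain ⟨W', g', hW'o, hW'W, hxW', hg', hgg⟩ := hR φ hφm x hxs hx _
      ⟨hW, inter_subset_left, fun y hy => hy.2⟩ hxW g hg
    have hcont : ContinuousAt g' (φ x) :=
      (hg'.continuousOn.continuousAt (hW'o.mem_nhds hxW'))
    have e1 : g' (φ x) = 0 := by
      refine val_eq φ (S := O1) (f' := fun _ => 0) hyt (by rwa [φ.left_inv hxs]) hW'o hxW' hcont
        continuousAt_const ?_
      intro z hz hz'
      rw [hgg z hz hz'.1]
      exact if_pos hz'
    have e2 : g' (φ x) = 1 := by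
      refine val_eq φ (S := O2) (f' := fun _ => 1) hyt (by rwa [φ.left_inv hxs]) hW'o hxW' hcont
        continuousAt_const ?_
      intro z hz hz'
      rw [hgg z hz hz'.1]
      exact if_neg fun h' => hdis' _ h' hz'
    rw [e1] at e2
    exact zero_ne_one e2
  have h3 := isPreconnected_iff_subset_of_disjoint.1 hc (closure O2)ᶜ (closure O1)ᶜ
    isClosed_closure.isOpen_compl isClosed_closure.isOpen_compl (by
      intro x hx
      by_cases h : x ∈ closure O2
      · exact Or.inr fun h' => key x hx h' h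
      · exact Or.inl h) (by
      rw [eq_empty_iff_forall_notMem]
      rintro x ⟨hx, hx2, hx1⟩
      have h4 := hd hx
      have h5 : closure M' ⊆ closure O1 ∪ closure O2 := by
        rw [← closure_union]
        exact closure_mono hcov
      rcases h5 h4 with h | h
      · exact hx1 h
      · exact hx2 h)
  have hMM := _hMM
  rcases h3 with h | h
  · left
    intro x hx
    rcases hcov hx with h' | h'
    · exact h'.2
    · exact absurd (subset_closure h') (h (hMM hx))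
  · right
    intro x hx
    rcases hcov hx with h' | h'
    · exact absurd (subset_closure h') (h (hMM hx))
    · exact h'.2

theorem conn2 (M M' M'' : Set X) (_hM : IsOpen M) (hM' : IsOpen M') (_hM'' : IsOpen M'')
    (hM2 : M'' ⊆ M') (_hM1 : M' ⊆ M) (_hd : M ⊆ closure M') (hd' : M' ⊆ closure M'')
    (hR : Rem n M'' M') (hR' : Rem n M' M) : Rem n M'' M := by
  classical
  intro φ hφ x hxs hx W hW hxW g hg
  obtain ⟨hWo, hWt, hWM⟩ := hW
  have hW1o : IsOpen (W ∩ φ.symm ⁻¹' M') := by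
    have h1 : W ∩ φ.symm ⁻¹' M' = W ∩ (φ.target ∩ φ.symm ⁻¹' M') := by
      ext y
      constructor
      · rintro ⟨h1, h2⟩
        exact ⟨h1, hWt h1, h2⟩
      · rintro ⟨h1, -, h2⟩
        exact ⟨h1, h2⟩
    rw [h1]
    exact hWo.inter (φ.isOpen_inter_preimage_symm hM')
  -- the local extensions
  have hloc : ∀ y₀ ∈ W ∩ φ.symm ⁻¹' M', ∃ (W' : Set (Fin n → ℂ)) (g' : (Fin n → ℂ) → ℂ),
      IsOpen W' ∧ W' ⊆ W ∩ φ.symm ⁻¹' M' ∧ y₀ ∈ W' ∧ DifferentiableOn ℂ g' W' ∧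
        ∀ y ∈ W', φ.symm y ∈ M'' → g' y = g y := by
    rintro y₀ ⟨hy1, hy2⟩
    have h2 := hR φ hφ (φ.symm y₀) (φ.map_target (hWt hy1)) hy2 (W ∩ φ.symm ⁻¹' M')
      ⟨hW1o, fun y hy => hWt hy.1, fun y hy => hy.2⟩
    rw [φ.right_inv (hWt hy1)] at h2
    exact h2 ⟨hy1, hy2⟩ g (hg.mono fun y hy => ⟨hy.1.1, hy.2⟩)
  choose! Wl gl hl1 hl2 hl3 hl4 hl5 using hloc
  -- the glued function
  have hglue : ∀ y₀ ∈ W ∩ φ.symm ⁻¹' M', ∀ y ∈ Wl y₀, gl y y = gl y₀ y := by
    intro y₀ hy₀ y hy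
    have hy' : y ∈ W ∩ φ.symm ⁻¹' M' := hl2 y₀ hy₀ hy
    refine val_eq φ (S := M'') (hWt hy'.1) (hd' hy'.2) ((hl1 y hy').inter (hl1 y₀ hy₀))
      ⟨hl3 y hy', hy⟩ ((hl4 y hy').continuousOn.continuousAt ((hl1 y hy').mem_nhds (hl3 y hy')))
      ((hl4 y₀ hy₀).continuousOn.continuousAt ((hl1 y₀ hy₀).mem_nhds hy)) ?_
    rintro z ⟨hz1, hz2⟩ hz3
    rw [hl5 y hy' z hz1 hz3, hl5 y₀ hy₀ z hz2 hz3]
  have hg1 : DifferentiableOn ℂ (fun y => gl y y) (W ∩ φ.symm ⁻¹' M') := by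
    intro y₀ hy₀
    apply DifferentiableAt.differentiableWithinAt
    have h1 : (fun y => gl y y) =ᶠ[𝓝 y₀] gl y₀ := by
      filter_upwards [(hl1 y₀ hy₀).mem_nhds (hl3 y₀ hy₀)] with y hy
      exact hglue y₀ hy₀ y hy
    exact ((hl4 y₀ hy₀).differentiableAt ((hl1 y₀ hy₀).mem_nhds (hl3 y₀ hy₀))).congr_of_eventuallyEq
      h1
  obtain ⟨W', g', h1, h2, h3, h4, h5⟩ := hR' φ hφ x hxs hx W ⟨hWo, hWt, hWM⟩ hxW _ hg1
  refine ⟨W', g', h1, h2, h3, h4, fun y hy hy'' => ?_⟩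
  rw [h5 y hy (hM2 hy'')]
  have hyW : y ∈ W ∩ φ.symm ⁻¹' M' := ⟨h2 hy, hM2 hy''⟩
  exact hl5 y hyW y (hl3 y hyW) hy''

theorem conn (n : ℕ) (X : Type) [TopologicalSpace X] [ChartedSpace (Fin n → ℂ) X]
    [IsManifold 𝓘(ℂ, Fin n → ℂ) ω X] : S_Conn n X :=
  ⟨conn1, conn2⟩

end Pool.Agent.Helper15.CX
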