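import Pool.Agent.Helper62.CX.Data
import Pool.Agent.Helper36.CX.FewG
import Pool.Agent.Helper4.BW.Pre

/-!
# The theorem on few zeros for one eigen-summand, from the data
-/

set_option autoImplicit false

open Polynomial Matrix Finset

namespace Pool.Agent.Helper15.CX

open Pool.Agent.Helper62.BM Pool.Agent.Helper62.CX
open Pool.Agent.Helper62.BW (dt Dat Gen Fam Irr IrrF W_Irr W_Strong W_Tr W_FewG sep_clear sep_map)

section maps

variable {A B : Type} [CommRing A] [CommRing B] [IsDomain A] [IsDomain B] (φ : A →+* B)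

theorem genC_map (hφ : Function.Injective φ) {na nb : ℕ} {a b : A[X][X]} (h : GenC na nb a b) :
    GenC na nb (a.map (mapRingHom φ)) (b.map (mapRingHom φ)) := by
  obtain ⟨h1, h2, h3, h4, h5⟩ := h
  refine ⟨h1.map _, h2.map _, by rw [h1.natDegree_map, h3], by rw [h2.natDegree_map, h4], ?_⟩
  obtain ⟨u, v, r, hr, huv⟩ := sep_clear (a * b) h5
  have h6 := sep_map ((algebraMap B[X] (FractionRing B[X])).comp (mapRingHom φ)) (a * b) u v r huv
    (by
      intro h0
      rw [RingHom.comp_apply] at h0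
      have h7 := (IsFractionRing.injective B[X] (FractionRing B[X])) (h0.trans (map_zero _).symm)
      exact hr (Polynomial.map_injective φ hφ (by rw [Polynomial.map_zero]; exact h7)))
  rw [← Polynomial.map_map, Polynomial.map_mul] at h6
  exact h6

theorem famC_map (hφ : Function.Injective φ) {m r na nb N : ℕ} {a b : A[X][X]} {D : Cdat A N}
    {P S : Fin N → A[X][X]} (h : FamC m r na nb a b D P S) :
    FamC m r na nb (a.map (mapRingHom φ)) (b.map (mapRingHom φ)) (D.map φ)
      (fun l => (P l).map (mapRingHom φ)) (fun l => (S l).map (mapRingHom φ)) := by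
  obtain ⟨h1, h2, h3, h4⟩ := h
  refine ⟨genC_map φ hφ h1, h2, ?_, ?_⟩
  · rw [Pool.Agent.Helper62.CX.map_W]
    exact Pool.Agent.Helper36.CX.map_relC φ h3
  · show D.M.map (mapRingHom φ) = _
    rw [h4]
    ext1 i j
    rw [Matrix.map_apply, coe_mapRingHom, Pool.Agent.Helper36.CX.map_Mc]

end maps

/-- The theorem on few zeros for one eigen-summand. -/
theorem fewA (hStrong : C_Strong) (hTr : C_Tr) (hIrr : C_Irr) (hBil : C_Bil) (hG : C_FewG)
    (hIH : C_IrrHalf) (wIrr : W_Irr) (wStrong : W_Strong) (wTr : W_Tr) (wG : W_FewG)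
    (m r na nb N : ℕ) (hr : 0 < r) (hrm : r < m) (hnd : ¬ m ∣ r * na + (m - r) * nb) (hN2 : 2 ≤ N)
    (hna : 1 ≤ na) (hnb : 1 ≤ nb) (hN : N + 1 = na + nb) (A : Type) [CommRing A] [IsDomain A]
    [CharZero A] [Countable A] (L : Type) [Field L] [CharZero L] (θ : A →+* L)
    (hθ : Function.Injective θ) (a b : A[X][X])
    (hdat : 2 * r ≠ m → ∃ (D : Cdat A N) (P S : Fin N → A[X][X]),
      FamC m r na nb a b D P S ∧ D.Ok)
    (hdat2 : ∀ g, 2 * r = m → N = 2 * g → ∃ (D : Dat A g) (P S : Fin (2 * g) → A[X][X]),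
      Fam g (a * b) D P S ∧ D.Ok)
    (hI : IrrC L m r N (a.map (mapRingHom θ)) (b.map (mapRingHom θ)))
    (hO : 2 * r = m ∨ N = 2 ∨ Odd N ∨
      NoBilC L m r N (a.map (mapRingHom θ)) (b.map (mapRingHom θ)))
    (G : MvPolynomial (Fin (dC m r na nb) × Fin (dC m r na nb)) A[X]) (hG0 : G ≠ 0)
    (ε : ℝ) (hε : 0 < ε) : ∃ (p₀ : ℕ) (a₀ : A), a₀ ≠ 0 ∧
      ∀ (p : ℕ) [Fact p.Prime] (k : Type) [Field k] [CharP k p] (φ : A →+* k), p₀ ≤ p →
      m ∣ p - 1 → φ a₀ ≠ 0 → ∀ T : Finset k, (∀ t ∈ T, t ^ p = t ∧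
        MvPolynomial.eval₂ ((evalRingHom t).comp (mapRingHom φ))
          (fun s : Fin (dC m r na nb) × Fin (dC m r na nb) =>
          (YC p (r * ((p - 1) / m)) ((m - r) * ((p - 1) / m)) (dC m r na nb) (dC m r na nb)
            (a.map (mapRingHom φ)) (b.map (mapRingHom φ)) s.1 s.2).eval t) G = 0) →
        (T.card : ℝ) ≤ ε * p := by
  have hinjF : Function.Injective (algebraMap A (FractionRing A)) :=
    IsFractionRing.injective A (FractionRing A)
  have hCF : CharZero (FractionRing A) := charZero_of_injective_algebraMap hinjF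
  by_cases h2 : 2 * r = m
  · -- the symplectic case
    have hmr : m - r = r := by omega
    have hodd : ¬ 2 ∣ na + nb := by
      rintro ⟨c, hc⟩
      apply hnd
      refine ⟨c, ?_⟩
      rw [hmr, ← mul_add, hc, ← h2]
      ring
    have hdC : dC m r na nb = (na + nb) / 2 := by
      unfold dC
      rw [hmr, ← mul_add, ← h2, mul_comm 2 r]
      exact Nat.mul_div_mul_left _ _ hr
    have hNg : N = 2 * dC m r na nb := by
      rw [hdC]
      omega
    have hg1 : 1 ≤ dC m r na nb := by omega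
    obtain ⟨D, P, S, hFam, hOk⟩ := hdat2 _ h2 hNg
    rw [hNg] at hI
    have k0 := hIH L m r (dC m r na nb) hr h2 hg1 _ _ hI
    have k1 := Pool.Agent.Helper4.BW.fam_map θ hθ hFam
    have k2 := Pool.Agent.Helper62.BW.ok_inj D hOk θ hθ
    rw [Polynomial.map_mul] at k1
    have k3 := wIrr L _ hg1 _ _ _ _ k1 k2 k0
    have k4 := wStrong L _ hg1 _ k2 k3
    have k5 := wTr A _ D hOk L (FractionRing A) _ _ hθ hinjF k4
    obtain ⟨p₀, a₀, ha₀, h⟩ := wG _ hg1 A (a * b) D P S hFam hOk k5 G hG0 ε hε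
    refine ⟨p₀, a₀, ha₀, ?_⟩
    intro p _ k _ _ φ hp hmp hφ T hT
    refine h p k φ hp hφ T fun t ht => ⟨(hT t ht).1, ?_⟩
    have h3 := (hT t ht).2
    rw [← h3]
    congr 1
    funext s
    congr 1
    have hq : r * ((p - 1) / m) = (p - 1) / 2 := by
      obtain ⟨c, hc⟩ := hmp
      have hm0 : 0 < m := by omega
      rw [hc, Nat.mul_div_cancel_left _ hm0, ← h2, mul_assoc, Nat.mul_div_cancel_left _ two_pos]
    unfold YC Yh
    rw [Matrix.of_apply, Matrix.of_apply, hmr, hq, Polynomial.map_mul, mul_pow]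
    rfl
  · -- the special linear case
    obtain ⟨D, P, S, hFam, hOk⟩ := hdat h2
    have k1 := famC_map θ hθ hFam
    have k2 := Pool.Agent.Helper62.CX.ok_inj D hOk θ hθ
    have k3 := hIrr L m r na nb N hr hrm (by omega) _ _ _ _ _ k1 k2 hI
    have k4 : (D.map θ).Strong := by
      refine hStrong L N hN2 _ k2 k3 ?_
      rcases hO with h | h | h | h
      · exact absurd h h2
      · exact Or.inl h
      · exact Or.inr (Or.inl h)
      · exact Or.inr (Or.inr (hBil L m r na nb N hr hrm (by omega) _ _ _ _ _ k1 k2 k3 h))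
    have k5 := hTr A N D hOk L (FractionRing A) _ _ hθ hinjF k4
    exact hG m r na nb N hr hrm hnd hN2 hna hnb A a b D P S hFam hOk k5 G hG0 ε hε

end Pool.Agent.Helper15.CX
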