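import Pool.Agent.Helper15.CX.Rk

/-!
# The local structure at the node (package C_Loc)
-/

set_option autoImplicit false

namespace Pool.Agent.Helper15.CX

open Polynomial
open Pool.Agent.Helper62.BM Pool.Agent.Helper62.BW Pool.Agent.Helper62.BX Pool.Agent.Helper62.CX

section

variable {A : Type} [CommRing A] [IsDomain A] [CharZero A]

/-- the syzygies at the node -/
lemma node_syz (m r N : ℕ) (hr : 0 < r) (hrm : r < m) (x₀ : A) (a₁ b₁ P₀ S₀ : A[X])
    (ha1m : a₁.Monic) (hb1m : b₁.Monic) (hgd : ((X - C x₀) * (a₁ * b₁)).natDegree = N)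
    (hsep : ((a₁ * b₁).map (algebraMap A (FractionRing A))).Separable)
    (hne : (a₁ * b₁).eval x₀ ≠ 0) (hSd0 : S₀.natDegree ≤ N)
    (hrel0 : (m : A[X]) * P₀ * ((X - C x₀) * (a₁ * b₁)) + S₀ * ((m : A[X]) * (a₁ * b₁) +
      (X - C x₀) * ((r : A[X]) * derivative a₁ * b₁ +
        ((m - r : ℕ) : A[X]) * a₁ * derivative b₁)) = 0) :
    ∃ σ : A, S₀ = C σ * ((X - C x₀) * (a₁ * b₁)) ∧
      (m : A[X]) * P₀ = -(C σ * ((m : A[X]) * (a₁ * b₁) +
      (X - C x₀) * ((r : A[X]) * derivative a₁ * b₁ +
        ((m - r : ℕ) : A[X]) * a₁ * derivative b₁))) := by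
  set g : A[X] := (X - C x₀) * (a₁ * b₁) with hg
  set V : A[X] := (r : A[X]) * derivative a₁ * b₁ + ((m - r : ℕ) : A[X]) * a₁ * derivative b₁
    with hV
  have hgm : g.Monic := (monic_X_sub_C x₀).mul (ha1m.mul hb1m)
  have hdvd : g ∣ S₀ := by
    have hinj : Function.Injective (algebraMap A (FractionRing A)) :=
      IsFractionRing.injective A (FractionRing A)
    rw [← Polynomial.map_dvd_map _ hinj hgm]
    have : CharZero (FractionRing A) := charZero_of_injective_algebraMap hinj
    have hne' : ((a₁.map (algebraMap A (FractionRing A))) *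
        (b₁.map (algebraMap A (FractionRing A)))).eval (algebraMap A (FractionRing A) x₀) ≠ 0 := by
      rw [← Polynomial.map_mul, eval_map_apply]
      exact fun h => hne (hinj (by rw [h, map_zero]))
    have hsep' : ((a₁.map (algebraMap A (FractionRing A))) *
        (b₁.map (algebraMap A (FractionRing A)))).Separable := by
      rwa [← Polynomial.map_mul]
    have hc := cop_node m r hr hrm _ _ _ hsep' hne'
    have h2 : ((m : A[X]) * (a₁ * b₁) + (X - C x₀) * V).map (algebraMap A (FractionRing A)) =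
        (m : (FractionRing A)[X]) * (a₁.map (algebraMap A (FractionRing A)) *
          b₁.map (algebraMap A (FractionRing A))) + (X - C (algebraMap A (FractionRing A) x₀)) *
          ((r : (FractionRing A)[X]) * derivative (a₁.map (algebraMap A (FractionRing A))) *
            b₁.map (algebraMap A (FractionRing A)) + ((m - r : ℕ) : (FractionRing A)[X]) *
            a₁.map (algebraMap A (FractionRing A)) *
              derivative (b₁.map (algebraMap A (FractionRing A)))) := by
      rw [hV]
      simp [derivative_map]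
    have h3 : g.map (algebraMap A (FractionRing A)) = (X - C (algebraMap A (FractionRing A) x₀)) *
        (a₁.map (algebraMap A (FractionRing A)) * b₁.map (algebraMap A (FractionRing A))) := by
      rw [hg]
      simp
    rw [← h2, ← h3] at hc
    refine hc.dvd_of_dvd_mul_right ?_
    rw [← Polynomial.map_mul]
    exact Polynomial.map_dvd _ ⟨-((m : A[X]) * P₀), by linear_combination hrel0⟩
  obtain ⟨q, hq⟩ := hdvd
  obtain ⟨σ, hσ⟩ : ∃ σ : A, S₀ = C σ * g := by
    by_cases hq0 : q = 0
    · exact ⟨0, by rw [hq, hq0]; simp⟩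
    · have h1 : q.natDegree = 0 := by
        rw [hq, hgm.natDegree_mul' hq0, hgd] at hSd0
        omega
      obtain ⟨σ, hσ⟩ := natDegree_eq_zero.1 h1
      exact ⟨σ, by rw [hq, ← hσ]; ring⟩
  refine ⟨σ, hσ, ?_⟩
  have h1 : g * ((m : A[X]) * P₀ + C σ * ((m : A[X]) * (a₁ * b₁) + (X - C x₀) * V)) = 0 := by
    rw [hσ] at hrel0
    rw [← hrel0]
    ring
  exact eq_neg_of_add_eq_zero_left ((mul_eq_zero.1 h1).resolve_left hgm.ne_zero)

/-- one step -/
lemma stepC (m r na nb N : ℕ) (hr : 0 < r) (hrm : r < m) (hN : N + 1 = na + nb)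
    (a b : A[X][X]) (ham : a.Monic) (hbm : b.Monic) (hna : a.natDegree = na)
    (hnb : b.natDegree = nb) (t₀ x₀ : A) (a₁ b₁ : A[X]) (hNd : NodeC a b t₀ x₀ a₁ b₁) (l : ℕ)
    (e : A[X]) (P S : A[X][X]) (hS : S.natDegree ≤ N)
    (h : (m : A[X][X]) * P * (a * b) + S * Lam m r a b (derivative a) (derivative b) =
      Polynomial.C ((X - Polynomial.C t₀) ^ 2 * e) * X ^ l * Lam m r a b (dt a) (dt b)) :
    ∃ P' S' : A[X][X], S'.natDegree ≤ N ∧
      (m : A[X][X]) * P' * (a * b) + S' * Lam m r a b (derivative a) (derivative b) =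
      Polynomial.C ((X - Polynomial.C t₀) * e) * X ^ l * Lam m r a b (dt a) (dt b) := by
  obtain ⟨ha0, hb0, hsep, hne, htr⟩ := hNd
  have hm0 : (m : A) ≠ 0 := by
    have : m ≠ 0 := by omega
    exact_mod_cast this
  have hr0 : (r : A) ≠ 0 := by
    have : r ≠ 0 := by omega
    exact_mod_cast this
  have hmr0 : ((m - r : ℕ) : A) ≠ 0 := by
    have : m - r ≠ 0 := by omega
    exact_mod_cast this
  have hmr : ((m - r : ℕ) : A[X]) = m - r := by rw [Nat.cast_sub hrm.le]
  set ev := evalRingHom t₀ with hev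
  have ha1m : a₁.Monic := by
    have h1 : ((X - C x₀) * a₁).Monic := by rw [← ha0]; exact ham.map _
    exact (monic_X_sub_C x₀).of_mul_monic_left h1
  have hb1m : b₁.Monic := by
    have h1 : ((X - C x₀) * b₁).Monic := by rw [← hb0]; exact hbm.map _
    exact (monic_X_sub_C x₀).of_mul_monic_left h1
  have hda : na = 1 + a₁.natDegree := by
    have h1 : (a.map ev).natDegree = na := by rw [ham.natDegree_map, hna]
    rw [ha0, (monic_X_sub_C x₀).natDegree_mul ha1m, natDegree_X_sub_C] at h1
    exact h1.symm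
  have hdb : nb = 1 + b₁.natDegree := by
    have h1 : (b.map ev).natDegree = nb := by rw [hbm.natDegree_map, hnb]
    rw [hb0, (monic_X_sub_C x₀).natDegree_mul hb1m, natDegree_X_sub_C] at h1
    exact h1.symm
  have hgd : ((X - C x₀) * (a₁ * b₁)).natDegree = N := by
    rw [(monic_X_sub_C x₀).natDegree_mul (ha1m.mul hb1m), ha1m.natDegree_mul hb1m,
      natDegree_X_sub_C]
    omega
  have hrel0 : (m : A[X]) * P.map ev * ((X - C x₀) * (a₁ * b₁)) +
      S.map ev * ((m : A[X]) * (a₁ * b₁) + (X - C x₀) * ((r : A[X]) * derivative a₁ * b₁ +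
        ((m - r : ℕ) : A[X]) * a₁ * derivative b₁)) = 0 := by
    have h1 := congrArg (Polynomial.map ev) h
    have hW : ev ((X - Polynomial.C t₀) ^ 2 * e) = 0 := by
      rw [hev]
      simp
    simp only [Lam, Polynomial.map_add, Polynomial.map_mul, Polynomial.map_natCast,
      ← derivative_map, map_C, hW, ha0, hb0, C_0, zero_mul] at h1
    simp only [derivative_mul, derivative_sub, derivative_X, derivative_C, sub_zero, one_mul] at h1
    have h2 : (X - C x₀) * ((m : A[X]) * P.map ev * ((X - C x₀) * (a₁ * b₁)) +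
      S.map ev * ((m : A[X]) * (a₁ * b₁) + (X - C x₀) * ((r : A[X]) * derivative a₁ * b₁ +
        ((m - r : ℕ) : A[X]) * a₁ * derivative b₁))) = 0 := by
      rw [← h1, hmr]
      ring
    exact (mul_eq_zero.1 h2).resolve_left (X_sub_C_ne_zero x₀)
  obtain ⟨σ, hσ, hPe⟩ := node_syz m r N hr hrm x₀ a₁ b₁ _ _ ha1m hb1m hgd hsep hne
    (natDegree_map_le.trans hS) hrel0
  -- the value of `P`
  have hPv : (P.map ev).eval x₀ = 0 := by
    have hda' : ((derivative a).map ev).eval x₀ = a₁.eval x₀ := by
      rw [← derivative_map, ha0]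
      simp
    have hdb' : ((derivative b).map ev).eval x₀ = b₁.eval x₀ := by
      rw [← derivative_map, hb0]
      simp
    have hne2 := hne
    rw [eval_mul] at hne2
    have h' : (m : A[X][X]) * P * (a * b) + S * Lam m r a b (derivative a) (derivative b) =
      Polynomial.C ((X - Polynomial.C t₀) * ((X - Polynomial.C t₀) * e)) * X ^ l *
        Lam m r a b (dt a) (dt b) := by
      rw [h]
      congr 3
      ring
    have h5 := value_P m r hm0 hr0 hmr0 hrm.le a b P S ((X - Polynomial.C t₀) * e) t₀ x₀ l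
      (by rw [← hev, ha0]; simp) (by rw [← hev, hb0]; simp) (by rw [← hev, hσ]; simp)
      (by rw [← hev, hda']; exact left_ne_zero_of_mul hne2)
      (by rw [← hev, hdb']; exact right_ne_zero_of_mul hne2)
      (by rw [← hev, hda', hdb']; exact htr) h'
    rw [← hev] at h5
    rw [h5]
    simp
  have hσ0 : σ = 0 := by
    have h1 := congrArg (Polynomial.eval x₀) hPe
    simp only [eval_mul, eval_neg, eval_add, eval_sub, eval_X, eval_C, sub_self, zero_mul, add_zero,
      eval_natCast, hPv, mul_zero] at h1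
    rw [eval_mul] at hne
    have h2 := neg_eq_zero.1 h1.symm
    rcases mul_eq_zero.1 h2 with h3 | h3
    · exact h3
    · exact absurd h3 (mul_ne_zero hm0 hne)
  rw [hσ0, C_0, zero_mul] at hσ
  rw [hσ0, C_0, zero_mul, neg_zero] at hPe
  have hmX : (m : A[X]) ≠ 0 := by
    rw [← C_eq_natCast]
    exact C_ne_zero.2 hm0
  have hPe' : P.map ev = 0 := (mul_eq_zero.1 hPe).resolve_left hmX
  have hdiv : ∀ Q : A[X][X], Q.map ev = 0 → C (X - C t₀) ∣ Q := by
    intro Q hQ
    rw [C_dvd_iff_dvd_coeff]
    intro i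
    rw [dvd_iff_isRoot]
    have := congrArg (fun q => Polynomial.coeff q i) hQ
    rw [coeff_map, coeff_zero] at this
    exact this
  obtain ⟨P', hP'⟩ := hdiv P hPe'
  obtain ⟨S', hS'⟩ := hdiv S hσ
  have hX : (X - C t₀ : A[X]) ≠ 0 := X_sub_C_ne_zero t₀
  refine ⟨P', S', ?_, ?_⟩
  · rw [hS', natDegree_C_mul hX] at hS
    exact hS
  · have hCX : (C (X - C t₀) : A[X][X]) ≠ 0 := fun h0 => hX (C_eq_zero.1 h0)
    apply mul_left_cancel₀ hCX
    rw [hP', hS'] at h
    have e1 : (C ((X - C t₀) ^ 2 * e) : A[X][X]) = C (X - C t₀) * C ((X - C t₀) * e) := by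
      rw [← C_mul]
      congr 1
      ring
    rw [e1] at h
    linear_combination h

/-- Clearing denominators in a Bezout relation. -/
theorem cop_clear {R : Type} [CommRing R] [IsDomain R] (F G : R[X])
    (h : IsCoprime (F.map (algebraMap R (FractionRing R)))
      (G.map (algebraMap R (FractionRing R)))) :
    ∃ (u v : R[X]) (r : R), r ≠ 0 ∧ u * F + v * G = Polynomial.C r := by
  obtain ⟨u, v, huv⟩ := h
  obtain ⟨b, hb⟩ := IsLocalization.integerNormalization_map_to_map (nonZeroDivisors R) u
  obtain ⟨c, hc⟩ := IsLocalization.integerNormalization_map_to_map (nonZeroDivisors R) v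
  set u' := IsLocalization.integerNormalization (nonZeroDivisors R) u with hu'
  set v' := IsLocalization.integerNormalization (nonZeroDivisors R) v with hv'
  have hinj : Function.Injective (algebraMap R (FractionRing R)) :=
    IsFractionRing.injective R (FractionRing R)
  refine ⟨Polynomial.C (c : R) * u', Polynomial.C (b : R) * v', (b : R) * c,
    mul_ne_zero (nonZeroDivisors.coe_ne_zero b) (nonZeroDivisors.coe_ne_zero c), ?_⟩
  apply Polynomial.map_injective _ hinj
  have hb' : u'.map (algebraMap R (FractionRing R)) =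
      Polynomial.C (algebraMap R (FractionRing R) b) * u := by
    rw [hb, Algebra.smul_def]
    rfl
  have hc' : v'.map (algebraMap R (FractionRing R)) =
      Polynomial.C (algebraMap R (FractionRing R) c) * v := by
    rw [hc, Algebra.smul_def]
    rfl
  rw [Polynomial.map_add, Polynomial.map_mul, Polynomial.map_mul, Polynomial.map_mul,
    Polynomial.map_mul, Polynomial.map_C, Polynomial.map_C, Polynomial.map_C, hb', hc', map_mul,
    map_mul]
  calc _ = Polynomial.C (algebraMap R (FractionRing R) b) *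
        Polynomial.C (algebraMap R (FractionRing R) c) *
        (u * F.map (algebraMap R (FractionRing R)) +
          v * G.map (algebraMap R (FractionRing R))) := by ring
    _ = _ := by rw [huv, mul_one]

lemma cop_Lam {K : Type} [Field K] [CharZero K] (m r : ℕ) (hr : 0 < r) (hrm : r < m)
    (a b : K[X]) (hsep : (a * b).Separable) :
    IsCoprime (a * b) (Lam m r a b (derivative a) (derivative b)) := by
  have hr0 : (r : K) ≠ 0 := by
    have : r ≠ 0 := by omega
    exact_mod_cast this
  have hmr0 : ((m - r : ℕ) : K) ≠ 0 := by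
    have : m - r ≠ 0 := by omega
    exact_mod_cast this
  have hab : IsCoprime a b := hsep.isCoprime
  have hua : ∀ n : ℕ, (n : K) ≠ 0 → ∀ f : K[X], IsCoprime f (n : K[X]) := by
    intro n hn f
    rw [← C_eq_natCast]
    refine ⟨0, C ((n : K)⁻¹), ?_⟩
    rw [zero_mul, zero_add, ← C_mul, inv_mul_cancel₀ hn, C_1]
  unfold Lam
  refine IsCoprime.mul_left ?_ ?_
  · have h1 : (r : K[X]) * derivative a * b + ((m - r : ℕ) : K[X]) * a * derivative b =
        (r : K[X]) * derivative a * b + a * (((m - r : ℕ) : K[X]) * derivative b) := by ring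
    rw [h1]
    refine IsCoprime.add_mul_left_right ?_ _
    exact IsCoprime.mul_right (IsCoprime.mul_right (hua r hr0 _) hsep.of_mul_left) hab
  · have h1 : (r : K[X]) * derivative a * b + ((m - r : ℕ) : K[X]) * a * derivative b =
        ((m - r : ℕ) : K[X]) * a * derivative b + b * ((r : K[X]) * derivative a) := by ring
    rw [h1]
    refine IsCoprime.add_mul_left_right ?_ _
    exact IsCoprime.mul_right (IsCoprime.mul_right (hua (m - r) hmr0 _) hab.symm) hsep.of_mul_right

lemma natDegree_Lam_le {R : Type} [CommRing R] (m r na nb N : ℕ) (hN : N + 1 = na + nb)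
    (a b a' b' : R[X]) (ha : a.natDegree ≤ na) (hb : b.natDegree ≤ nb)
    (ha' : a'.natDegree + 1 ≤ na ∨ a' = 0) (hb' : b'.natDegree + 1 ≤ nb ∨ b' = 0) :
    (Lam m r a b a' b').natDegree ≤ N := by
  unfold Lam
  refine (natDegree_add_le _ _).trans (max_le ?_ ?_)
  · rcases ha' with h | h
    · refine natDegree_mul_le.trans ?_
      have h1 : ((r : R[X]) * a').natDegree ≤ a'.natDegree := by
        rw [← C_eq_natCast]
        exact natDegree_C_mul_le _ _
      omega
    · rw [h]
      simp
  · rcases hb' with h | h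
    · refine natDegree_mul_le.trans ?_
      have h1 : (((m - r : ℕ) : R[X]) * a).natDegree ≤ a.natDegree := by
        rw [← C_eq_natCast]
        exact natDegree_C_mul_le _ _
      omega
    · rw [h]
      simp

omit [CharZero A] in
lemma natDegree_dt (a : A[X][X]) (ham : a.Monic) (na : ℕ) (hna : a.natDegree = na) :
    (dt a).natDegree + 1 ≤ na ∨ dt a = 0 := by
  rcases Nat.eq_zero_or_pos na with h0 | hpos
  · right
    have h1 : a = 1 := by
      rw [← hna] at h0
      exact ham.natDegree_eq_zero.1 h0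
    ext1 i
    rw [coeff_dt, h1, coeff_one]
    split_ifs <;> simp
  · left
    have h1 : (dt a).natDegree ≤ na - 1 := by
      rw [natDegree_le_iff_coeff_eq_zero]
      intro i hi
      rw [coeff_dt]
      rcases eq_or_ne i na with h | h
      · rw [h, ← hna, ham.coeff_natDegree, derivative_one]
      · rw [coeff_eq_zero_of_natDegree_lt (by omega), derivative_zero]
    omega

omit [CharZero A] [IsDomain A] in
lemma natDegree_der {R : Type} [CommRing R] (a : R[X]) (na : ℕ) (hna : a.natDegree = na) :
    (derivative a).natDegree + 1 ≤ na ∨ derivative a = 0 := by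
  rcases Nat.eq_zero_or_pos na with h0 | hpos
  · right
    obtain ⟨c, hc⟩ := natDegree_eq_zero.1 (hna.trans h0)
    rw [← hc, derivative_C]
  · left
    have := natDegree_derivative_le a
    omega

theorem c_loc : C_Loc := by
  intro A _ _ _ m r na nb N hr hrm hN a b hG t₀ x₀ a₁ b₁ hNd
  obtain ⟨ham, hbm, hna, hnb, hsepF⟩ := hG
  have hm0 : (m : A) ≠ 0 := by
    have : m ≠ 0 := by omega
    exact_mod_cast this
  have habm : (a * b).Monic := ham.mul hbm
  have habd : (a * b).natDegree = N + 1 := by
    rw [ham.natDegree_mul hbm, hna, hnb, hN]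
  set Lx := Lam m r a b (derivative a) (derivative b) with hLx
  set Lt := Lam m r a b (dt a) (dt b) with hLt
  have hLxd : Lx.natDegree ≤ N :=
    natDegree_Lam_le m r na nb N hN a b _ _ hna.le hnb.le (natDegree_der a na hna)
      (natDegree_der b nb hnb)
  have hLtd : Lt.natDegree ≤ N :=
    natDegree_Lam_le m r na nb N hN a b _ _ hna.le hnb.le (natDegree_dt a ham na hna)
      (natDegree_dt b hbm nb hnb)
  -- the Bezout relation
  have hcop : IsCoprime ((a * b).map (algebraMap A[X] (FractionRing A[X])))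
      (Lx.map (algebraMap A[X] (FractionRing A[X]))) := by
    have : CharZero (FractionRing A[X]) :=
      charZero_of_injective_algebraMap (IsFractionRing.injective A[X] (FractionRing A[X]))
    rw [Polynomial.map_mul] at hsepF ⊢
    have h1 := cop_Lam m r hr hrm _ _ hsepF
    have h2 : Lx.map (algebraMap A[X] (FractionRing A[X])) =
        Lam m r (a.map (algebraMap A[X] (FractionRing A[X])))
          (b.map (algebraMap A[X] (FractionRing A[X])))
          (derivative (a.map (algebraMap A[X] (FractionRing A[X]))))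
          (derivative (b.map (algebraMap A[X] (FractionRing A[X])))) := by
      rw [hLx]
      simp [Lam, derivative_map]
    rw [h2]
    exact h1
  obtain ⟨u, v, ρ, hρ, huv⟩ := cop_clear _ _ hcop
  -- the ideal
  set I : Set A[X] := {d | ∀ l : Fin N, ∃ P S : A[X][X], S.natDegree ≤ N ∧
    (m : A[X][X]) * P * (a * b) + S * Lx = Polynomial.C d * X ^ (l : ℕ) * Lt} with hI
  have hstep : ∀ e : A[X], (X - C t₀) ^ 2 * e ∈ I → (X - C t₀) * e ∈ I := by
    intro e he l
    obtain ⟨P, S, hS, h⟩ := he l
    exact stepC m r na nb N hr hrm hN a b ham hbm hna hnb t₀ x₀ a₁ b₁ hNd l e P S hS h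
  have hrI : (m : A[X]) * ρ ∈ I := by
    intro l
    refine ⟨u * X ^ (l : ℕ) * Lt + (v * X ^ (l : ℕ) * Lt) /ₘ (a * b) * Lx,
      (m : A[X][X]) * ((v * X ^ (l : ℕ) * Lt) %ₘ (a * b)), ?_, ?_⟩
    · have h1 := natDegree_modByMonic_lt (v * X ^ (l : ℕ) * Lt) habm (by
        intro h0
        rw [h0, natDegree_one] at habd
        omega)
      have h2 : ((m : A[X][X]) * ((v * X ^ (l : ℕ) * Lt) %ₘ (a * b))).natDegree ≤
          ((v * X ^ (l : ℕ) * Lt) %ₘ (a * b)).natDegree := by
        rw [← C_eq_natCast]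
        exact natDegree_C_mul_le _ _
      omega
    · have h5 := modByMonic_add_div (v * X ^ (l : ℕ) * Lt) (a * b)
      have h6 : Polynomial.C ((m : A[X]) * ρ) = (m : A[X][X]) * (u * (a * b) + v * Lx) := by
        rw [huv, C_mul, C_eq_natCast]
      rw [h6]
      linear_combination ((m : A[X][X]) * Lx) * h5
  have hmρ : (m : A[X]) * ρ ≠ 0 := by
    refine mul_ne_zero ?_ hρ
    rw [← C_eq_natCast]
    exact C_ne_zero.2 hm0
  have hex : ∃ d : A[X], d ∈ I ∧ ¬ (X - C t₀) ^ 2 ∣ d := by
    have : ∀ n : ℕ, ∀ d : A[X], d ≠ 0 → d.natDegree ≤ n → d ∈ I →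
        ∃ d : A[X], d ∈ I ∧ ¬ (X - C t₀) ^ 2 ∣ d := by
      intro n
      induction n with
      | zero =>
        intro d hd0 hdn hd
        refine ⟨d, hd, fun ⟨e, he⟩ => ?_⟩
        have he0 : e ≠ 0 := by
          rintro rfl
          exact hd0 (by rw [he, mul_zero])
        have := ((monic_X_sub_C t₀).pow 2).natDegree_mul' he0
        rw [← he, natDegree_pow, natDegree_X_sub_C] at this
        omega
      | succ n ih =>
        intro d hd0 hdn hd
        by_cases hdv : (X - C t₀) ^ 2 ∣ d
        · obtain ⟨e, he⟩ := hdv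
          have he0 : e ≠ 0 := by
            rintro rfl
            exact hd0 (by rw [he, mul_zero])
          have k1 := ((monic_X_sub_C t₀).pow 2).natDegree_mul' he0
          rw [← he, natDegree_pow, natDegree_X_sub_C] at k1
          have k2 := (monic_X_sub_C t₀).natDegree_mul' he0
          rw [natDegree_X_sub_C] at k2
          exact ih ((X - C t₀) * e) (mul_ne_zero (X_sub_C_ne_zero t₀) he0) (by omega)
            (hstep e (he ▸ hd))
        · exact ⟨d, hd, hdv⟩
    exact this _ _ hmρ le_rfl hrI
  obtain ⟨d, hd, hnd⟩ := hex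
  have hfin : ∀ w : A[X], w.eval t₀ ≠ 0 → (X - C t₀) * w ∈ I →
      ∃ (w : A[X]) (P S : Fin N → A[X][X]), w.eval t₀ ≠ 0 ∧
      RelC m r N a b ((X - Polynomial.C t₀) * w) P S := by
    intro w hw hwI
    choose P S hS h using hwI
    refine ⟨w, P, S, hw, fun l => ⟨?_, hS l, h l⟩⟩
    by_cases hP : P l = 0
    · have := l.2
      rw [hP, natDegree_zero]
      omega
    · have hmP : (m : A[X][X]) * P l ≠ 0 := by
        refine mul_ne_zero ?_ hP
        rw [← C_eq_natCast, ← C_eq_natCast]
        exact C_ne_zero.2 (C_ne_zero.2 hm0)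
      have h1 : ((m : A[X][X]) * P l * (a * b)).natDegree = (P l).natDegree + (N + 1) := by
        rw [natDegree_mul hmP habm.ne_zero, habd]
        congr 1
        rw [← C_eq_natCast]
        refine natDegree_C_mul ?_
        rw [← C_eq_natCast]
        exact C_ne_zero.2 hm0
      have h2 : (m : A[X][X]) * P l * (a * b) =
          Polynomial.C ((X - C t₀) * w) * X ^ (l : ℕ) * Lt - S l * Lx := eq_sub_of_add_eq (h l)
      have h3 : (Polynomial.C ((X - C t₀) * w) * X ^ (l : ℕ) * Lt).natDegree ≤ 2 * N := by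
        refine natDegree_mul_le.trans ?_
        have h4 : (Polynomial.C ((X - C t₀) * w) * X ^ (l : ℕ) : A[X][X]).natDegree ≤ l :=
          natDegree_C_mul_X_pow_le _ _
        have := l.2
        omega
      have h5 : (S l * Lx).natDegree ≤ 2 * N := by
        refine natDegree_mul_le.trans ?_
        have := hS l
        omega
      have h7 : ((m : A[X][X]) * P l * (a * b)).natDegree ≤ 2 * N := by
        rw [h2]
        exact (natDegree_sub_le _ _).trans (max_le h3 h5)
      omega
  by_cases hdr : d.eval t₀ = 0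
  · obtain ⟨w, hw⟩ := dvd_iff_isRoot.2 hdr
    refine hfin w (fun h0 => hnd ?_) (hw ▸ hd)
    obtain ⟨w', hw'⟩ := dvd_iff_isRoot.2 h0
    exact ⟨w', by rw [hw, hw']; ring⟩
  · refine hfin d hdr fun l => ?_
    obtain ⟨P, S, hS, h⟩ := hd l
    refine ⟨C (X - C t₀) * P, C (X - C t₀) * S, ?_, ?_⟩
    · exact (natDegree_C_mul_le _ _).trans hS
    · rw [C_mul]
      linear_combination C (X - C t₀) * h

end

end Pool.Agent.Helper15.CX
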