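import Pool.Agent.Helper62.CX.Stm

/-!
# The residue at the node (package C_Rk)
-/

set_option autoImplicit false

namespace Pool.Agent.Helper15.CX

open Polynomial
open Pool.Agent.Helper62.BM Pool.Agent.Helper62.BW Pool.Agent.Helper62.BX Pool.Agent.Helper62.CX

section

variable {A : Type} [CommRing A]

/-- restriction to the line `x = x₀ + s₁ τ`, `t = t₀ + s₂ τ` -/
noncomputable def Phi (x₀ t₀ s₁ s₂ : A) : A[X][X] →+* A[X] :=
  Polynomial.eval₂RingHom (Polynomial.compRingHom (C t₀ + C s₂ * X)) (C x₀ + C s₁ * X)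

lemma Phi_coeff_zero (x₀ t₀ s₁ s₂ : A) (F : A[X][X]) :
    (Phi x₀ t₀ s₁ s₂ F).coeff 0 = (F.map (evalRingHom t₀)).eval x₀ := by
  rw [coeff_zero_eq_eval_zero]
  have h : (evalRingHom (0 : A)).comp (Phi x₀ t₀ s₁ s₂) =
      (evalRingHom x₀).comp (mapRingHom (evalRingHom t₀)) := by
    refine Polynomial.ringHom_ext' (Polynomial.ringHom_ext' ?_ ?_) ?_
    · ext a
      simp [Phi]
    · simp [Phi]
    · simp [Phi]
  exact DFunLike.congr_fun h F

lemma dt_add (F G : A[X][X]) : dt (F + G) = dt F + dt G := by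
  ext1 i
  rw [coeff_dt, coeff_add, coeff_add, coeff_dt, coeff_dt, derivative_add]

lemma dt_monomial (n : ℕ) (c : A[X]) : dt (monomial n c) = monomial n (derivative c) := by
  ext1 i
  rw [coeff_dt, coeff_monomial, coeff_monomial]
  split_ifs <;> simp

lemma Phi_deriv (x₀ t₀ s₁ s₂ : A) (F : A[X][X]) :
    derivative (Phi x₀ t₀ s₁ s₂ F) =
      Phi x₀ t₀ s₁ s₂ (derivative F) * C s₁ + Phi x₀ t₀ s₁ s₂ (dt F) * C s₂ := by
  induction F using Polynomial.induction_on' with
  | add p q hp hq =>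
    rw [map_add, derivative_add, hp, hq, derivative_add, map_add, dt_add, map_add]
    ring
  | monomial n c =>
    rw [dt_monomial, derivative_monomial]
    have h1 : ∀ (k : ℕ) (e : A[X]), Phi x₀ t₀ s₁ s₂ (monomial k e) =
        e.comp (C t₀ + C s₂ * X) * (C x₀ + C s₁ * X) ^ k := by
      intro k e
      simp [Phi]
    rw [h1, h1, h1, derivative_mul, derivative_comp, derivative_pow]
    simp only [derivative_add, derivative_C, derivative_mul, derivative_X, zero_mul, zero_add,
      mul_one, mul_comp, natCast_comp]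
    simp only [map_natCast]
    ring

lemma Phi_coeff_one (x₀ t₀ s₁ s₂ : A) (F : A[X][X]) :
    (Phi x₀ t₀ s₁ s₂ F).coeff 1 = ((derivative F).map (evalRingHom t₀)).eval x₀ * s₁ +
      ((dt F).map (evalRingHom t₀)).eval x₀ * s₂ := by
  have h := congrArg (fun q : A[X] => q.coeff 0) (Phi_deriv x₀ t₀ s₁ s₂ F)
  simp only [coeff_derivative, coeff_add, coeff_mul_C, Phi_coeff_zero] at h
  simpa using h

lemma c0 (f g : A[X]) : (f * g).coeff 0 = f.coeff 0 * g.coeff 0 := mul_coeff_zero f g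

lemma c1 (f g : A[X]) : (f * g).coeff 1 = f.coeff 0 * g.coeff 1 + f.coeff 1 * g.coeff 0 :=
  mul_coeff_one f g

lemma c2 (f g : A[X]) : (f * g).coeff 2 = f.coeff 0 * g.coeff 2 + f.coeff 1 * g.coeff 1 +
    f.coeff 2 * g.coeff 0 := by
  rw [coeff_mul]
  simp [Finset.Nat.antidiagonal_succ]
  ring

/-- The value of `P` at the node. -/
lemma value_P [IsDomain A] (m r : ℕ) (hm : (m : A) ≠ 0) (hr : (r : A) ≠ 0)
    (hrm : ((m - r : ℕ) : A) ≠ 0) (hle : r ≤ m) (a b P S : A[X][X]) (w : A[X]) (t₀ x₀ : A) (l : ℕ)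
    (ha : (a.map (evalRingHom t₀)).eval x₀ = 0) (hb : (b.map (evalRingHom t₀)).eval x₀ = 0)
    (hS : (S.map (evalRingHom t₀)).eval x₀ = 0)
    (hax : ((derivative a).map (evalRingHom t₀)).eval x₀ ≠ 0)
    (hbx : ((derivative b).map (evalRingHom t₀)).eval x₀ ≠ 0)
    (htr : ((dt a).map (evalRingHom t₀)).eval x₀ * ((derivative b).map (evalRingHom t₀)).eval x₀ ≠
      ((dt b).map (evalRingHom t₀)).eval x₀ * ((derivative a).map (evalRingHom t₀)).eval x₀)
    (hrel : (m : A[X][X]) * P * (a * b) + S * Lam m r a b (derivative a) (derivative b) =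
      Polynomial.C ((X - Polynomial.C t₀) * w) * X ^ l * Lam m r a b (dt a) (dt b)) :
    (P.map (evalRingHom t₀)).eval x₀ = w.eval t₀ * x₀ ^ l := by
  set u := ((derivative a).map (evalRingHom t₀)).eval x₀ with hu
  set v := ((derivative b).map (evalRingHom t₀)).eval x₀ with hv
  set α := ((dt a).map (evalRingHom t₀)).eval x₀ with hα
  set β := ((dt b).map (evalRingHom t₀)).eval x₀ with hβ
  set s₂ : A := m * u * v with hs₂
  set s₁ : A := -(r * u * β + ((m - r : ℕ) : A) * α * v) with hs₁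
  set Φ := Phi x₀ t₀ s₁ s₂ with hΦ
  have ha0 : (Φ a).coeff 0 = 0 := by rw [hΦ, Phi_coeff_zero, ha]
  have hb0 : (Φ b).coeff 0 = 0 := by rw [hΦ, Phi_coeff_zero, hb]
  have hS0 : (Φ S).coeff 0 = 0 := by rw [hΦ, Phi_coeff_zero, hS]
  have ha1 : (Φ a).coeff 1 = u * s₁ + α * s₂ := Phi_coeff_one _ _ _ _ _
  have hb1 : (Φ b).coeff 1 = v * s₁ + β * s₂ := Phi_coeff_one _ _ _ _ _
  have hu0 : (Φ (derivative a)).coeff 0 = u := Phi_coeff_zero _ _ _ _ _
  have hv0 : (Φ (derivative b)).coeff 0 = v := Phi_coeff_zero _ _ _ _ _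
  have hα0 : (Φ (dt a)).coeff 0 = α := Phi_coeff_zero _ _ _ _ _
  have hβ0 : (Φ (dt b)).coeff 0 = β := Phi_coeff_zero _ _ _ _ _
  have hP0 : (Φ P).coeff 0 = (P.map (evalRingHom t₀)).eval x₀ := Phi_coeff_zero _ _ _ _ _
  have hmr : ((m - r : ℕ) : A) = m - r := by
    rw [Nat.cast_sub hle]
  -- the factor `W`
  set Wt : A[X] := Φ (Polynomial.C ((X - Polynomial.C t₀) * w)) with hWt
  have hW0 : Wt.coeff 0 = 0 := by
    rw [hWt, hΦ, Phi_coeff_zero]
    simp
  have hW1 : Wt.coeff 1 = w.eval t₀ * s₂ := by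
    rw [hWt, hΦ, Phi_coeff_one]
    have h1 : dt (Polynomial.C ((X - Polynomial.C t₀) * w)) =
        Polynomial.C (derivative ((X - Polynomial.C t₀) * w)) := by
      rw [← monomial_zero_left, dt_monomial, monomial_zero_left]
    rw [h1]
    simp
  have hx0 : (Φ (X ^ l)).coeff 0 = x₀ ^ l := by
    rw [hΦ, Phi_coeff_zero]
    simp
  -- the two sides
  set L1 := Φ (Lam m r a b (derivative a) (derivative b)) with hL1
  set L2 := Φ (Lam m r a b (dt a) (dt b)) with hL2
  have hL1e : L1 = (r : A[X]) * Φ (derivative a) * Φ b +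
      ((m - r : ℕ) : A[X]) * Φ a * Φ (derivative b) := by
    rw [hL1]
    simp [Lam]
  have hL2e : L2 = (r : A[X]) * Φ (dt a) * Φ b + ((m - r : ℕ) : A[X]) * Φ a * Φ (dt b) := by
    rw [hL2]
    simp [Lam]
  have hn0 : ∀ n : ℕ, (n : A[X]).coeff 0 = n := fun n => by simp
  have hn1 : ∀ n : ℕ, (n : A[X]).coeff 1 = 0 := fun n => by
    rw [← C_eq_natCast, coeff_C]
    simp
  have hn2 : ∀ n : ℕ, (n : A[X]).coeff 2 = 0 := fun n => by
    rw [← C_eq_natCast, coeff_C]
    simp
  have hL10 : L1.coeff 0 = 0 := by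
    rw [hL1e, coeff_add, c0, c0, c0, c0, ha0, hb0]
    ring
  have hL11 : L1.coeff 1 = 0 := by
    rw [hL1e, coeff_add, c1, c1, c0, c1, c0, c1, hn0, hn0, hn1, hn1, ha0, hb0, ha1, hb1, hu0, hv0,
      hs₁, hs₂, hmr]
    ring
  have hL20 : L2.coeff 0 = 0 := by
    rw [hL2e, coeff_add, c0, c0, c0, c0, ha0, hb0]
    ring
  have hL21 : L2.coeff 1 = r * α * (v * s₁ + β * s₂) +
      ((m - r : ℕ) : A) * (u * s₁ + α * s₂) * β := by
    rw [hL2e, coeff_add, c1, c1, c0, c1, c0, c1, hn0, hn0, hn1, hn1, ha0, hb0, ha1, hb1, hα0, hβ0]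
    ring
  have h1 := congrArg (fun F => (Φ F).coeff 2) hrel
  simp only [map_add, map_mul] at h1
  rw [← hL1, ← hL2] at h1
  have h2 : (Φ (m : A[X][X])) = (m : A[X]) := map_natCast _ _
  rw [h2] at h1
  rw [← map_mul Φ (Polynomial.C (X - Polynomial.C t₀)) (Polynomial.C w), ← Polynomial.C_mul,
    ← hWt] at h1
  rw [coeff_add, c2, c2, c2, c0, c1, c2, c0, c1, c2, c2, c0, c1, hn0, hn1, hn2, ha0, hb0, ha1, hb1,
    hS0, hL10, hL11, hL20, hL21, hW0, hW1, hx0, hP0] at h1
  set Pv := (P.map (evalRingHom t₀)).eval x₀ with hPv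
  set p := u * s₁ + α * s₂ with hp
  set q := v * s₁ + β * s₂ with hq
  have h3 : (r : A) * u * q + ((m - r : ℕ) : A) * v * p = 0 := by
    rw [hp, hq, hs₁, hs₂, hmr]
    ring
  have h4 : (m : A) * p * q = s₂ * (r * α * q + ((m - r : ℕ) : A) * p * β) := by
    have h5 : (m : A) * p * q = r * q * (u * s₁ + α * s₂) + ((m - r : ℕ) : A) * p * (v * s₁ + β * s₂) := by
      rw [← hp, ← hq, hmr]
      ring
    rw [h5]
    linear_combination s₁ * h3
  have h5 : (m : A) * p * q * (Pv - w.eval t₀ * x₀ ^ l) = 0 := by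
    have h6 : (m : A) * p * q * (w.eval t₀ * x₀ ^ l) =
        w.eval t₀ * s₂ * x₀ ^ l * (r * α * q + ((m - r : ℕ) : A) * p * β) := by
      rw [h4]
      ring
    rw [mul_sub, h6]
    linear_combination h1
  have hp0 : p ≠ 0 := by
    intro h
    have hq0 : q = 0 := by
      rw [h, mul_zero, add_zero] at h3
      rcases mul_eq_zero.1 h3 with h6 | h6
      · exact absurd h6 (mul_ne_zero hr hax)
      · exact h6
    have h7 : s₂ * (α * v - β * u) = 0 := by
      linear_combination v * h - u * hq0 + (0 : A) * hp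
    rcases mul_eq_zero.1 h7 with h8 | h8
    · exact (mul_ne_zero (mul_ne_zero hm hax) hbx) h8
    · exact htr (sub_eq_zero.1 h8)
  have hq0 : q ≠ 0 := by
    intro h
    rw [h, mul_zero, zero_add] at h3
    exact mul_ne_zero (mul_ne_zero hrm hbx) hp0 h3
  rcases mul_eq_zero.1 h5 with h6 | h6
  · exact absurd h6 (mul_ne_zero (mul_ne_zero hm hp0) hq0)
  · exact sub_eq_zero.1 h6

/-- the coprimality at the node -/
lemma cop_node {K : Type} [Field K] [CharZero K] (m r : ℕ) (hr : 0 < r) (hrm : r < m)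
    (a₁ b₁ : K[X]) (x₀ : K) (hsep : (a₁ * b₁).Separable) (hne : (a₁ * b₁).eval x₀ ≠ 0) :
    IsCoprime ((X - C x₀) * (a₁ * b₁)) ((m : K[X]) * (a₁ * b₁) +
      (X - C x₀) * ((r : K[X]) * derivative a₁ * b₁ + ((m - r : ℕ) : K[X]) * a₁ * derivative b₁)) := by
  have hm0 : (m : K) ≠ 0 := by
    have : m ≠ 0 := by omega
    exact_mod_cast this
  have hr0 : (r : K) ≠ 0 := by
    have : r ≠ 0 := by omega
    exact_mod_cast this
  have hmr0 : ((m - r : ℕ) : K) ≠ 0 := by
    have : m - r ≠ 0 := by omega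
    exact_mod_cast this
  have hev : a₁.eval x₀ ≠ 0 ∧ b₁.eval x₀ ≠ 0 := by
    rw [eval_mul] at hne
    exact ⟨left_ne_zero_of_mul hne, right_ne_zero_of_mul hne⟩
  have hX : ∀ f : K[X], f.eval x₀ ≠ 0 → IsCoprime (X - C x₀) f := by
    intro f hf
    rw [(irreducible_X_sub_C x₀).coprime_iff_not_dvd, dvd_iff_isRoot]
    exact hf
  have hab : IsCoprime a₁ b₁ := hsep.isCoprime
  have hua : ∀ n : ℕ, (n : K) ≠ 0 → ∀ f : K[X], IsCoprime f (n : K[X]) := by
    intro n hn f
    rw [← C_eq_natCast]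
    refine ⟨0, C ((n : K)⁻¹), ?_⟩
    rw [zero_mul, zero_add, ← C_mul, inv_mul_cancel₀ hn, C_1]
  refine IsCoprime.mul_left ?_ (IsCoprime.mul_left ?_ ?_)
  · apply hX
    simp only [eval_add, eval_mul, eval_sub, eval_X, eval_C, sub_self, zero_mul, add_zero,
      eval_natCast]
    rw [eval_mul] at hne
    exact mul_ne_zero hm0 hne
  · have h1 : (m : K[X]) * (a₁ * b₁) + (X - C x₀) * ((r : K[X]) * derivative a₁ * b₁ +
        ((m - r : ℕ) : K[X]) * a₁ * derivative b₁) =
        (X - C x₀) * ((r : K[X]) * derivative a₁ * b₁) +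
          a₁ * ((m : K[X]) * b₁ + (X - C x₀) * ((m - r : ℕ) : K[X]) * derivative b₁) := by
      ring
    rw [h1]
    refine IsCoprime.add_mul_left_right ?_ _
    refine IsCoprime.mul_right (hX _ hev.1).symm (IsCoprime.mul_right (IsCoprime.mul_right ?_ ?_) hab)
    · exact hua r hr0 _
    · exact hsep.of_mul_left
  · have h1 : (m : K[X]) * (a₁ * b₁) + (X - C x₀) * ((r : K[X]) * derivative a₁ * b₁ +
        ((m - r : ℕ) : K[X]) * a₁ * derivative b₁) =
        (X - C x₀) * (((m - r : ℕ) : K[X]) * a₁ * derivative b₁) +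
          b₁ * ((m : K[X]) * a₁ + (X - C x₀) * (r : K[X]) * derivative a₁) := by
      ring
    rw [h1]
    refine IsCoprime.add_mul_left_right ?_ _
    refine IsCoprime.mul_right (hX _ hev.2).symm (IsCoprime.mul_right (IsCoprime.mul_right ?_ ?_) ?_)
    · exact hua (m - r) hmr0 _
    · exact hab.symm
    · exact hsep.of_mul_right

end

theorem c_rk : C_Rk := by
  intro A _ _ _ m r na nb N hr hrm hN a b hG t₀ x₀ a₁ b₁ hNd w P S hRel i l
  obtain ⟨ham, hbm, hna, hnb, -⟩ := hG
  obtain ⟨ha0, hb0, hsep, hne, htr⟩ := hNd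
  obtain ⟨hPd, hSd, hrel⟩ := hRel l
  have hm0 : (m : A) ≠ 0 := by
    have : m ≠ 0 := by omega
    exact_mod_cast this
  have hr0 : (r : A) ≠ 0 := by
    have : r ≠ 0 := by omega
    exact_mod_cast this
  have hmr0 : ((m - r : ℕ) : A) ≠ 0 := by
    have : m - r ≠ 0 := by omega
    exact_mod_cast this
  have hmr : ((m - r : ℕ) : A[X]) = m - r := by rw [Nat.cast_sub hrm.le]
  set ev := evalRingHom t₀ with hev
  set P₀ := (P l).map ev with hP₀
  set S₀ := (S l).map ev with hS₀
  set g : A[X] := (X - C x₀) * (a₁ * b₁) with hg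
  set V : A[X] := (r : A[X]) * derivative a₁ * b₁ + ((m - r : ℕ) : A[X]) * a₁ * derivative b₁
    with hV
  -- the polynomials `a₁`, `b₁`
  have ha1m : a₁.Monic := by
    have h1 : ((X - C x₀) * a₁).Monic := by rw [← ha0]; exact ham.map _
    exact (monic_X_sub_C x₀).of_mul_monic_left h1
  have hb1m : b₁.Monic := by
    have h1 : ((X - C x₀) * b₁).Monic := by rw [← hb0]; exact hbm.map _
    exact (monic_X_sub_C x₀).of_mul_monic_left h1
  have hda : na = 1 + a₁.natDegree := by
    have h1 : (a.map ev).natDegree = na := by rw [ham.natDegree_map, hna]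
    rw [ha0, (monic_X_sub_C x₀).natDegree_mul ha1m, natDegree_X_sub_C] at h1
    exact h1.symm
  have hdb : nb = 1 + b₁.natDegree := by
    have h1 : (b.map ev).natDegree = nb := by rw [hbm.natDegree_map, hnb]
    rw [hb0, (monic_X_sub_C x₀).natDegree_mul hb1m, natDegree_X_sub_C] at h1
    exact h1.symm
  have hgm : g.Monic := (monic_X_sub_C x₀).mul (ha1m.mul hb1m)
  have hgd : g.natDegree = N := by
    rw [hg, (monic_X_sub_C x₀).natDegree_mul (ha1m.mul hb1m), ha1m.natDegree_mul hb1m,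
      natDegree_X_sub_C]
    omega
  -- the relation at `t₀`
  have hrel0 : (m : A[X]) * P₀ * g + S₀ * ((m : A[X]) * (a₁ * b₁) + (X - C x₀) * V) = 0 := by
    have h1 := congrArg (Polynomial.map ev) hrel
    have hW : ev ((X - Polynomial.C t₀) * w) = 0 := by
      rw [hev]
      simp
    simp only [Lam, Polynomial.map_add, Polynomial.map_mul, Polynomial.map_natCast,
      ← derivative_map, map_C, hW, ha0, hb0, C_0, zero_mul, ← hP₀, ← hS₀] at h1
    simp only [derivative_mul, derivative_sub, derivative_X, derivative_C, sub_zero, one_mul] at h1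
    have h2 : (X - C x₀) * ((m : A[X]) * P₀ * g +
        S₀ * ((m : A[X]) * (a₁ * b₁) + (X - C x₀) * V)) = 0 := by
      rw [← h1, hg, hV, hmr]
      ring
    exact (mul_eq_zero.1 h2).resolve_left (X_sub_C_ne_zero x₀)
  -- divisibility
  have hdvd : g ∣ S₀ := by
    have hinj : Function.Injective (algebraMap A (FractionRing A)) :=
      IsFractionRing.injective A (FractionRing A)
    rw [← Polynomial.map_dvd_map _ hinj hgm]
    have : CharZero (FractionRing A) := charZero_of_injective_algebraMap hinj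
    have hne' : ((a₁.map (algebraMap A (FractionRing A))) *
        (b₁.map (algebraMap A (FractionRing A)))).eval (algebraMap A (FractionRing A) x₀) ≠ 0 := by
      rw [← Polynomial.map_mul, eval_map_apply]
      exact fun h => hne (hinj (by rw [h, map_zero]))
    have hsep' : ((a₁.map (algebraMap A (FractionRing A))) *
        (b₁.map (algebraMap A (FractionRing A)))).Separable := by
      rwa [← Polynomial.map_mul]
    have hc := cop_node m r hr hrm _ _ _ hsep' hne'
    have h2 : ((m : A[X]) * (a₁ * b₁) + (X - C x₀) * V).map (algebraMap A (FractionRing A)) =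
        (m : (FractionRing A)[X]) * (a₁.map (algebraMap A (FractionRing A)) *
          b₁.map (algebraMap A (FractionRing A))) + (X - C (algebraMap A (FractionRing A) x₀)) *
          ((r : (FractionRing A)[X]) * derivative (a₁.map (algebraMap A (FractionRing A))) *
            b₁.map (algebraMap A (FractionRing A)) + ((m - r : ℕ) : (FractionRing A)[X]) *
            a₁.map (algebraMap A (FractionRing A)) *
              derivative (b₁.map (algebraMap A (FractionRing A)))) := by
      rw [hV]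
      simp [derivative_map]
    have h3 : g.map (algebraMap A (FractionRing A)) = (X - C (algebraMap A (FractionRing A) x₀)) *
        (a₁.map (algebraMap A (FractionRing A)) * b₁.map (algebraMap A (FractionRing A))) := by
      rw [hg]
      simp
    rw [← h2, ← h3] at hc
    refine hc.dvd_of_dvd_mul_right ?_
    rw [← Polynomial.map_mul]
    exact Polynomial.map_dvd _ ⟨-((m : A[X]) * P₀), by linear_combination hrel0⟩
  obtain ⟨q, hq⟩ := hdvd
  have hSd0 : S₀.natDegree ≤ N := (natDegree_map_le).trans hSd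
  obtain ⟨σ, hσ⟩ : ∃ σ : A, S₀ = C σ * g := by
    by_cases hq0 : q = 0
    · exact ⟨0, by rw [hq, hq0]; simp⟩
    · have h1 : q.natDegree = 0 := by
        rw [hq, hgm.natDegree_mul' hq0, hgd] at hSd0
        omega
      obtain ⟨σ, hσ⟩ := natDegree_eq_zero.1 h1
      exact ⟨σ, by rw [hq, ← hσ]; ring⟩
  have hPe : (m : A[X]) * P₀ = -(C σ * ((m : A[X]) * (a₁ * b₁) + (X - C x₀) * V)) := by
    have h1 : g * ((m : A[X]) * P₀ + C σ * ((m : A[X]) * (a₁ * b₁) + (X - C x₀) * V)) = 0 := by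
      rw [hσ] at hrel0
      rw [← hrel0]
      ring
    exact eq_neg_of_add_eq_zero_left ((mul_eq_zero.1 h1).resolve_left hgm.ne_zero)
  -- the value of `P`
  have hPv : P₀.eval x₀ = w.eval t₀ * x₀ ^ (l : ℕ) := by
    have hda' : ((derivative a).map ev).eval x₀ = a₁.eval x₀ := by
      rw [← derivative_map, ha0]
      simp
    have hdb' : ((derivative b).map ev).eval x₀ = b₁.eval x₀ := by
      rw [← derivative_map, hb0]
      simp
    rw [eval_mul] at hne
    refine value_P m r hm0 hr0 hmr0 hrm.le a b (P l) (S l) w t₀ x₀ l ?_ ?_ ?_ ?_ ?_ ?_ hrel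
    · rw [← hev, ha0]
      simp
    · rw [← hev, hb0]
      simp
    · rw [← hev, ← hS₀, hσ, hg]
      simp
    · rw [← hev, hda']
      exact left_ne_zero_of_mul hne
    · rw [← hev, hdb']
      exact right_ne_zero_of_mul hne
    · rw [← hev, hda', hdb']
      exact htr
  have hσv : -(σ * (a₁ * b₁).eval x₀) = w.eval t₀ * x₀ ^ (l : ℕ) := by
    have h1 := congrArg (Polynomial.eval x₀) hPe
    simp only [eval_mul, eval_neg, eval_add, eval_sub, eval_X, eval_C, sub_self, zero_mul, add_zero,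
      eval_natCast] at h1
    rw [← hPv, eval_mul]
    have h2 : (m : A) * (-(σ * (a₁.eval x₀ * b₁.eval x₀))) = m * P₀.eval x₀ := by
      rw [h1]
      ring
    exact mul_left_cancel₀ hm0 h2
  -- the coefficients
  have hMc : (Mc P S i l).eval t₀ = -(P₀ + derivative S₀).coeff i := by
    have h1 : (P l + derivative (S l)).map ev = P₀ + derivative S₀ := by
      rw [Polynomial.map_add, ← derivative_map]
    rw [← h1, coeff_map]
    unfold Mc
    rw [Matrix.of_apply, eval_neg]
    rfl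
  have hsum : (m : A[X]) * (P₀ + derivative S₀) = C σ * ((X - C x₀) *
      (((m - r : ℕ) : A[X]) * derivative a₁ * b₁ + (r : A[X]) * a₁ * derivative b₁)) := by
    rw [mul_add, hPe, hσ, hg, hV]
    simp only [derivative_mul, derivative_sub, derivative_X, derivative_C, zero_mul, zero_add,
      sub_zero, one_mul]
    rw [hmr]
    ring
  have hco := congrArg (fun f : A[X] => f.coeff i) hsum
  simp only [coeff_C_mul] at hco
  rw [← C_eq_natCast, coeff_C_mul] at hco
  rw [hMc]
  calc (m : A) * (a₁ * b₁).eval x₀ * -(P₀ + derivative S₀).coeff i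
      = -((a₁ * b₁).eval x₀ * (m * (P₀ + derivative S₀).coeff i)) := by ring
    _ = -(σ * (a₁ * b₁).eval x₀) * ((X - C x₀) *
      (((m - r : ℕ) : A[X]) * derivative a₁ * b₁ + (r : A[X]) * a₁ * derivative b₁)).coeff i := by
        rw [hco]
        ring
    _ = _ := by
        rw [hσv]
        ring

end Pool.Agent.Helper15.CX
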